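import Pool.Agent.BC90323.B9

set_option autoImplicit false

/-!
# The sum `∑_{k<p} a(4k) C(2k,k)³ / (-4096)^k` is divisible by `p³`

Here `a(0) = 0`, `a(1) = 1`, `a(n+2) = 5 a(n+1) - 8 a(n)` and `p` is an odd prime with
`p ≡ 1, 2, 4 (mod 7)`.  The sum is a rational number whose denominator is a power of `2`, so the
congruence modulo `p³` says that `p³` divides its numerator.
-/

namespace Pool.Agent.Results.MP_90323e_nt.CubeSumModCube

theorem result (a : ℕ → ℤ) (ha0 : a 0 = 0) (ha1 : a 1 = 1)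
    (ha : ∀ n, a (n + 2) = 5 * a (n + 1) - 8 * a n)
    (p : ℕ) (hp : p.Prime) (hodd : p ≠ 2) (h7 : p % 7 = 1 ∨ p % 7 = 2 ∨ p % 7 = 4) :
    (p : ℤ) ^ 3 ∣
      (∑ k ∈ Finset.range p, (a (4 * k) : ℚ) * ((2 * k).choose k : ℚ) ^ 3 / (-4096) ^ k).num := by
  haveI : Fact p.Prime := ⟨hp⟩
  exact Pool.Agent.BC90323.B9.main hodd h7 a ha0 ha1 ha

end Pool.Agent.Results.MP_90323e_nt.CubeSumModCube
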